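import Pool.Agent.helper17.SG.SpecB

set_option autoImplicit false

open MeasureTheory Set Metric Filter Topology
open scoped ENNReal NNReal ComplexConjugate

namespace Pool.Agent.SG

theorem B06_norm_circle (θ : ℝ) : ‖circleMap 0 1 θ‖ = 1 := by
  rw [norm_circleMap_zero, abs_one]

theorem B06_circle (θ : ℝ) : circleMap 0 1 θ = Complex.exp (θ * Complex.I) := by
  simp [circleMap]

theorem B06_circle_arg (w : ℂ) (hw : ‖w‖ = 1) : circleMap 0 1 (Complex.arg w) = w := by
  rw [B06_circle]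
  have := Complex.norm_mul_exp_arg_mul_I w
  rw [hw] at this
  simpa using this

theorem B06_arg_circle (θ : ℝ) (hθ : θ ∈ Ioc (-Real.pi) Real.pi) :
    Complex.arg (circleMap 0 1 θ) = θ := by
  rw [B06_circle, Complex.arg_exp_mul_I]
  rw [toIocMod_eq_self]
  constructor
  · exact hθ.1
  · have := hθ.2
    linarith

theorem B06_shift (f : ℂ → ℝ≥0∞) :
    ∫⁻ θ in Ioc 0 (2 * Real.pi), f (circleMap 0 1 θ) =
      ∫⁻ θ in Ioc (-Real.pi) Real.pi, f (circleMap 0 1 θ) := by
  have : Fact ((0 : ℝ) < 2 * Real.pi) := ⟨by positivity⟩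
  have key : ∀ θ : ℝ, f (circleMap 0 1 θ) =
      (fun x : AddCircle (2 * Real.pi) => f ((AddCircle.toCircle x : Circle) : ℂ)) (θ : AddCircle (2 * Real.pi)) := by
    intro θ
    simp only
    rw [AddCircle.toCircle_apply_mk, B06_circle, Circle.coe_exp]
    congr 3
    have : (2 * Real.pi) ≠ 0 := by positivity
    rw [div_self this]
    push_cast
    ring
  have h1 := AddCircle.lintegral_preimage (2 * Real.pi) 0
    (fun x : AddCircle (2 * Real.pi) => f ((AddCircle.toCircle x : Circle) : ℂ))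
  have h2 := AddCircle.lintegral_preimage (2 * Real.pi) (-Real.pi)
    (fun x : AddCircle (2 * Real.pi) => f ((AddCircle.toCircle x : Circle) : ℂ))
  have e1 : (0 : ℝ) + 2 * Real.pi = 2 * Real.pi := by ring
  have e2 : -Real.pi + 2 * Real.pi = Real.pi := by ring
  rw [e1] at h1
  rw [e2] at h2
  simp only [key]
  rw [h1, h2]

theorem B06_den {a b ξ : ℂ} (h : ‖a‖ ^ 2 - ‖b‖ ^ 2 = 1) (hξ : ‖ξ‖ = 1) :
    conj b * ξ + conj a ≠ 0 := by
  intro h0
  have h1 : ‖conj b * ξ‖ = ‖conj a‖ := by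
    have : conj b * ξ = -conj a := eq_neg_of_add_eq_zero_left h0
    rw [this, norm_neg]
  rw [norm_mul, hξ, mul_one, RCLike.norm_conj, RCLike.norm_conj] at h1
  rw [h1] at h
  norm_num at h

theorem B06_num {a b ξ : ℂ} (hξ : ‖ξ‖ = 1) : a * ξ + b = ξ * conj (conj b * ξ + conj a) := by
  have h1 : ξ * conj ξ = 1 := by
    rw [Complex.mul_conj, Complex.normSq_eq_norm_sq, hξ]
    norm_num
  rw [map_add, map_mul, Complex.conj_conj, Complex.conj_conj, mul_add]
  calc a * ξ + b = b * 1 + ξ * a := by ring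
    _ = ξ * (b * conj ξ) + ξ * a := by rw [← h1]; ring

theorem B06_deriv {a b : ℂ} (h : ‖a‖ ^ 2 - ‖b‖ ^ 2 = 1) {ξ : ℂ} (hξ : ‖ξ‖ = 1) :
    HasDerivAt (mob a b) (1 / (conj b * ξ + conj a) ^ 2) ξ := by
  have hd := B06_den h hξ
  have h1 : HasDerivAt (fun z : ℂ => a * z + b) a ξ := by
    simpa using ((hasDerivAt_id ξ).const_mul a).add_const b
  have h2 : HasDerivAt (fun z : ℂ => conj b * z + conj a) (conj b) ξ := by
    simpa using ((hasDerivAt_id ξ).const_mul (conj b)).add_const (conj a)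
  have h3 := h1.div h2 hd
  refine h3.congr_deriv ?_
  congr 1
  have h4 : a * conj a - b * conj b = 1 := by
    rw [Complex.mul_conj, Complex.mul_conj, Complex.normSq_eq_norm_sq, Complex.normSq_eq_norm_sq]
    exact_mod_cast h
  calc a * (conj b * ξ + conj a) - (a * ξ + b) * conj b = a * conj a - b * conj b := by ring
    _ = 1 := h4

/-- derivative of the angle -/
theorem B06_angle {a b : ℂ} (h : ‖a‖ ^ 2 - ‖b‖ ^ 2 = 1) (θ : ℝ)
    (hs : mob a b (circleMap 0 1 θ) ∈ Complex.slitPlane) :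
    HasDerivAt (fun t : ℝ => Complex.arg (mob a b (circleMap 0 1 t)))
      (1 / ‖conj b * circleMap 0 1 θ + conj a‖ ^ 2) θ := by
  set ξ := circleMap 0 1 θ with hξd
  have hξ : ‖ξ‖ = 1 := B06_norm_circle θ
  have hd := B06_den h hξ
  have h1 : HasDerivAt (circleMap 0 1) (ξ * Complex.I) θ := by
    have := hasDerivAt_circleMap 0 1 θ
    simpa using this
  have h2 : HasDerivAt (fun t : ℝ => mob a b (circleMap 0 1 t))
      ((1 / (conj b * ξ + conj a) ^ 2) * (ξ * Complex.I)) θ :=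
    HasDerivAt.comp θ (B06_deriv h hξ) h1
  have h3 := h2.clog_real hs
  have h4 := Complex.imCLM.hasFDerivAt.comp_hasDerivAt θ h3
  have h5 : (fun t : ℝ => Complex.arg (mob a b (circleMap 0 1 t))) =
      (Complex.imCLM ∘ fun t : ℝ => Complex.log (mob a b (circleMap 0 1 t))) := by
    funext t
    simp [Complex.log_im]
  rw [h5]
  refine h4.congr_deriv ?_
  have hξ0 : ξ ≠ 0 := by
    intro h0
    rw [h0, norm_zero] at hξ
    norm_num at hξ
  have hcd : conj (conj b * ξ + conj a) ≠ 0 := by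
    rw [Ne, map_eq_zero]; exact hd
  have h6 : (1 / (conj b * ξ + conj a) ^ 2) * (ξ * Complex.I) / mob a b ξ =
      ((1 / ‖conj b * ξ + conj a‖ ^ 2 : ℝ) : ℂ) * Complex.I := by
    unfold mob
    rw [B06_num (a := a) (b := b) hξ]
    have h7 : ((1 / ‖conj b * ξ + conj a‖ ^ 2 : ℝ) : ℂ) =
        1 / ((conj b * ξ + conj a) * conj (conj b * ξ + conj a)) := by
      rw [Complex.mul_conj, Complex.normSq_eq_norm_sq]
      push_cast
      rfl
    rw [h7]
    field_simp
  change Complex.imCLM ((1 / (conj b * ξ + conj a) ^ 2) * (ξ * Complex.I) / mob a b ξ) = _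
  rw [h6]
  simp only [Complex.imCLM_apply, Complex.mul_im, Complex.ofReal_re, Complex.ofReal_im,
    Complex.I_re, Complex.I_im, mul_one, mul_zero, add_zero]

theorem B06_slit {w : ℂ} (hw : ‖w‖ = 1) (h : w ≠ -1) : w ∈ Complex.slitPlane := by
  rw [Complex.mem_slitPlane_iff_arg]
  refine ⟨fun hp => h ?_, fun h0 => ?_⟩
  · have h1 := B06_circle_arg w hw
    rw [hp, B06_circle, Complex.exp_pi_mul_I] at h1
    exact h1.symm
  · rw [h0, norm_zero] at hw
    norm_num at hw

/-- Change of variables on the circle. -/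
theorem B06 (hB01 : B01_stmt) (hB05 : B05_stmt) : B06_stmt := by
  intro Γ _ A γ
  obtain ⟨-, -, hcirc, -, -, hinv1, hinv2, hmeasA, -, -⟩ := hB01 Γ A
  obtain ⟨-, -, -, -, hlam⟩ := hB05
  set a := A.a γ⁻¹ with ha
  set b := A.b γ⁻¹ with hb
  have hN : ‖a‖ ^ 2 - ‖b‖ ^ 2 = 1 := A.norm_eq γ⁻¹
  have hG : ∀ z, A.act γ⁻¹ z = mob a b z := fun z => rfl
  have hmeasG : Measurable (mob a b) := hmeasA γ⁻¹
  have hcm : Measurable (circleMap 0 1) := (continuous_circleMap 0 1).measurable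
  have hG1 : ∀ ξ, ‖ξ‖ = 1 → ‖mob a b ξ‖ = 1 := fun ξ hξ => hcirc γ⁻¹ ξ hξ
  have hFG : ∀ ξ, ‖ξ‖ = 1 → A.act γ (mob a b ξ) = ξ := fun ξ hξ => hinv2 γ ξ hξ.le
  have hGF : ∀ ξ, ‖ξ‖ = 1 → mob a b (A.act γ ξ) = ξ := fun ξ hξ => hinv1 γ ξ hξ.le
  -- the kernel
  have ha0 : a ≠ 0 := by
    intro h0
    rw [h0, norm_zero] at hN
    nlinarith [sq_nonneg ‖b‖]
  have hpt : a * A.pt γ + b = 0 := by
    have h1 : mob a b (A.pt γ) = 0 := by
      have := hinv1 γ 0 (by simp)
      exact this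
    unfold mob at h1
    rw [div_eq_zero_iff] at h1
    rcases h1 with h1 | h1
    · exact h1
    · exfalso
      have hz : ‖A.pt γ‖ ≤ 1 := by
        have := (hB01 Γ A).1 γ 0 (by simp)
        exact this
      have h2 : conj b * A.pt γ = -conj a := eq_neg_of_add_eq_zero_left h1
      have h3 : ‖b‖ * ‖A.pt γ‖ = ‖a‖ := by
        have := congrArg norm h2
        rwa [norm_mul, norm_neg, RCLike.norm_conj, RCLike.norm_conj] at this
      have h4 : ‖a‖ ≤ ‖b‖ := by
        rw [← h3]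
        exact mul_le_of_le_one_right (norm_nonneg _) hz
      nlinarith [norm_nonneg a, norm_nonneg b]
  have hz : A.pt γ = -b / a := by
    rw [eq_div_iff ha0]
    linear_combination hpt
  have hker : ∀ ξ, ‖ξ‖ = 1 → 1 / ‖conj b * ξ + conj a‖ ^ 2 = poi (A.pt γ) ξ := by
    intro ξ hξ
    unfold poi
    have hna : 0 < ‖a‖ := norm_pos_iff.2 ha0
    have h1 : ξ - A.pt γ = (a * ξ + b) / a := by
      rw [hz]
      field_simp
      ring
    have h2 : ‖ξ - A.pt γ‖ = ‖conj b * ξ + conj a‖ / ‖a‖ := by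
      rw [h1, norm_div, B06_num (a := a) (b := b) hξ, norm_mul, hξ, one_mul, RCLike.norm_conj]
    have h3 : ‖A.pt γ‖ = ‖b‖ / ‖a‖ := by
      rw [hz, norm_div, norm_neg]
    have hd : 0 < ‖conj b * ξ + conj a‖ := norm_pos_iff.2 (B06_den hN hξ)
    rw [h2, h3]
    have h4 : 1 - (‖b‖ / ‖a‖) ^ 2 = 1 / ‖a‖ ^ 2 := by
      field_simp
      linarith
    rw [h4]
    field_simp
  -- the exceptional set
  set s : Set ℝ := {θ | θ ∈ Ioc (-Real.pi) Real.pi ∧ mob a b (circleMap 0 1 θ) ≠ -1} with hs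
  have hsm : MeasurableSet s := by
    have h1 : MeasurableSet {θ : ℝ | mob a b (circleMap 0 1 θ) ≠ -1} :=
      (hmeasG.comp hcm) (measurableSet_singleton (-1 : ℂ)).compl
    exact measurableSet_Ioc.inter h1
  have hsae : s =ᵐ[volume] Ioc (-Real.pi) Real.pi := by
    have hsub : Ioc (-Real.pi) Real.pi \ s ⊆ {Complex.arg (A.act γ (-1))} := by
      rintro θ ⟨hθ, hθs⟩
      have h1 : mob a b (circleMap 0 1 θ) = -1 := by
        by_contra hcon
        exact hθs ⟨hθ, hcon⟩
      have h2 := hFG _ (B06_norm_circle θ)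
      rw [h1] at h2
      rw [mem_singleton_iff, h2]
      exact (B06_arg_circle θ hθ).symm
    have h0 : volume (Ioc (-Real.pi) Real.pi \ s) = 0 :=
      measure_mono_null hsub (measure_singleton _)
    have hss : s ⊆ Ioc (-Real.pi) Real.pi := fun θ hθ => hθ.1
    exact (LE.le.eventuallyLE hss).antisymm (ae_le_set.2 h0)
  set φ : ℝ → ℝ := fun θ => Complex.arg (mob a b (circleMap 0 1 θ)) with hφ
  have hφd : ∀ θ ∈ s, HasDerivWithinAt φ (poi (A.pt γ) (circleMap 0 1 θ)) s θ := by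
    intro θ hθ
    have h1 := B06_angle hN θ (B06_slit (hG1 _ (B06_norm_circle θ)) hθ.2)
    rw [hker _ (B06_norm_circle θ)] at h1
    exact h1.hasDerivWithinAt
  have hcφ : ∀ θ, circleMap 0 1 (φ θ) = mob a b (circleMap 0 1 θ) := fun θ =>
    B06_circle_arg _ (hG1 _ (B06_norm_circle θ))
  have hφi : InjOn φ s := by
    intro θ hθ θ' hθ' he
    have h1 : mob a b (circleMap 0 1 θ) = mob a b (circleMap 0 1 θ') := by
      rw [← hcφ, ← hcφ, he]
    have h2 : circleMap 0 1 θ = circleMap 0 1 θ' := by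
      rw [← hFG _ (B06_norm_circle θ), h1, hFG _ (B06_norm_circle θ')]
    rw [← B06_arg_circle θ hθ.1, h2, B06_arg_circle θ' hθ'.1]
  have himg : φ '' s = Ioo (-Real.pi) Real.pi := by
    ext α
    constructor
    · rintro ⟨θ, hθ, rfl⟩
      have h1 := Complex.arg_mem_Ioc (mob a b (circleMap 0 1 θ))
      have h2 := (Complex.mem_slitPlane_iff_arg.1
        (B06_slit (hG1 _ (B06_norm_circle θ)) hθ.2)).1
      exact ⟨h1.1, lt_of_le_of_ne h1.2 h2⟩
    · intro hα
      have hα' : α ∈ Ioc (-Real.pi) Real.pi := ⟨hα.1, hα.2.le⟩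
      have hF1 : ‖A.act γ (circleMap 0 1 α)‖ = 1 := hcirc γ _ (B06_norm_circle α)
      have h1 : circleMap 0 1 (Complex.arg (A.act γ (circleMap 0 1 α))) =
          A.act γ (circleMap 0 1 α) := B06_circle_arg _ hF1
      have h2 : mob a b (circleMap 0 1 (Complex.arg (A.act γ (circleMap 0 1 α)))) =
          circleMap 0 1 α := by
        rw [h1, hGF _ (B06_norm_circle α)]
      refine ⟨Complex.arg (A.act γ (circleMap 0 1 α)), ⟨Complex.arg_mem_Ioc _, ?_⟩, ?_⟩
      · rw [h2]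
        intro h3
        have h4 := B06_arg_circle α hα'
        rw [h3, Complex.arg_neg_one] at h4
        exact hα.2.ne h4.symm
      · simp only [hφ]
        rw [h2]
        exact B06_arg_circle α hα'
  -- the computation
  have hpoi0 : ∀ θ, 0 ≤ poi (A.pt γ) (circleMap 0 1 θ) := by
    intro θ
    rw [← hker _ (B06_norm_circle θ)]
    positivity
  have hpoim : Measurable fun ξ => ENNReal.ofReal (poi (A.pt γ) ξ) := by
    have : Measurable fun ξ => poi (A.pt γ) ξ := by
      unfold poi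
      fun_prop
    exact this.ennreal_ofReal
  refine Measure.ext fun E hE => ?_
  unfold lax
  rw [Measure.map_apply (hmeasA γ) hE, withDensity_apply _ hE, ← lintegral_indicator hE]
  have hpre : MeasurableSet (A.act γ ⁻¹' E) := hmeasA γ hE
  have hone : lam (A.act γ ⁻¹' E) = ∫⁻ ξ, (A.act γ ⁻¹' E).indicator (fun _ => 1) ξ ∂lam := by
    rw [lintegral_indicator hpre, setLIntegral_one]
  rw [hone, hlam _ (measurable_const.indicator hpre), hlam _ (hpoim.indicator hE)]
  congr 1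
  rw [B06_shift, B06_shift]
  have hI : (Ioo (-Real.pi) Real.pi : Set ℝ) =ᵐ[volume] Ioc (-Real.pi) Real.pi := Ioo_ae_eq_Ioc
  rw [← setLIntegral_congr hI, ← himg,
    lintegral_image_eq_lintegral_abs_deriv_mul hsm hφd hφi, ← setLIntegral_congr hsae]
  refine setLIntegral_congr_fun hsm (fun θ _ => ?_)
  rw [abs_of_nonneg (hpoi0 θ), hcφ]
  by_cases hin : circleMap 0 1 θ ∈ E
  · have h1 : mob a b (circleMap 0 1 θ) ∈ A.act γ ⁻¹' E := by
      rw [mem_preimage, hFG _ (B06_norm_circle θ)]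
      exact hin
    rw [indicator_of_mem h1, indicator_of_mem hin, mul_one]
  · have h1 : mob a b (circleMap 0 1 θ) ∉ A.act γ ⁻¹' E := by
      rw [mem_preimage, hFG _ (B06_norm_circle θ)]
      exact hin
    rw [indicator_of_notMem h1, indicator_of_notMem hin, mul_zero]

end Pool.Agent.SG
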