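import Pool.Agent.helper17.SG.SpecP

set_option autoImplicit false

open MeasureTheory Set Metric Filter Topology
open scoped ENNReal NNReal ComplexConjugate

namespace Pool.Agent.SG

theorem P08_exn {Γ : Type} [Group Γ] (W : Walk Γ) (D D' : Set Γ) (hD : D' ⊆ D) (w : Γ)
    (hw : w ∉ D) (n : ℕ) : ∀ x, W.exn D' n x w ≤ W.exn D n x w := by
  induction n with
  | zero =>
    intro x
    unfold Walk.exn
    by_cases h1 : x ∈ D'
    · rw [if_pos h1]
      exact zero_le
    · rw [if_neg h1]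
      by_cases h2 : x ∈ D
      · have h3 : x ≠ w := fun h => hw (h ▸ h2)
        rw [if_neg h3]
        exact zero_le
      · rw [if_neg h2]
  | succ n ih =>
    intro x
    unfold Walk.exn
    by_cases h1 : x ∈ D'
    · rw [if_pos h1, if_pos (hD h1)]
      exact Finset.sum_le_sum fun s _ => mul_le_mul_right (ih (x * s)) _
    · rw [if_neg h1]
      by_cases h2 : x ∈ D
      · have h3 : x ≠ w := fun h => hw (h ▸ h2)
        rw [if_neg h3]
        exact zero_le
      · rw [if_neg h2]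

theorem P08_exi {Γ : Type} [Group Γ] (W : Walk Γ) (D D' : Set Γ) (hD : D' ⊆ D) (w : Γ)
    (hw : w ∉ D) (x : Γ) : W.exi D' x w ≤ W.exi D x w :=
  iSup_mono fun n => P08_exn W D D' hD w hw n x

/-- Balayage identity for infinite `D`. -/
theorem P08 (h5 : P05_stmt) (h6 : P06_stmt) (h7 : P07_stmt) : P08_stmt := by
  intro Γ _ _ W D h hh hM hfin x
  refine le_antisymm ?_ (h6 Γ W D h hh x)
  refine ENNReal.le_of_forall_pos_le_add fun ε hε _ => ?_
  have hε0 : (ε : ℝ≥0∞) ≠ 0 := by
    rw [Ne, ENNReal.coe_eq_zero]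
    exact hε.ne'
  set D' : Set Γ := {x | x ∈ D ∧ (ε : ℝ≥0∞) < h x} with hD'
  have hDfin : D'.Finite := hfin ε hε0
  have hDD : D' ⊆ D := fun y hy => hy.1
  obtain ⟨h71, h72⟩ := h7 Γ W D' hDfin
  obtain ⟨-, -, h53, -, -, -⟩ := h5 Γ W D'
  have hterm : ∀ w, W.exi D' x w * h w ≤ W.exi D x w * h w + W.exi D' x w * ε := by
    intro w
    by_cases h0 : W.exi D' x w = 0
    · rw [h0, zero_mul]
      exact zero_le
    · have hwD' : w ∉ D' := (h53 x w h0).1
      by_cases hwD : w ∈ D
      · have hle : h w ≤ (ε : ℝ≥0∞) := by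
          by_contra hcon
          exact hwD' ⟨hwD, not_le.1 hcon⟩
        exact (mul_le_mul_right hle _).trans le_add_self
      · exact (mul_le_mul_left (P08_exi W D D' hDD w hwD x) _).trans le_self_add
  calc h x = ∑' w, W.exi D' x w * h w := h71 h hh hM x
    _ ≤ ∑' w, (W.exi D x w * h w + W.exi D' x w * ε) := ENNReal.tsum_le_tsum hterm
    _ = ∑' w, W.exi D x w * h w + ∑' w, W.exi D' x w * ε := ENNReal.tsum_add
    _ = ∑' w, W.exi D x w * h w + ε := by
        rw [ENNReal.tsum_mul_right, h72 x, one_mul]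

end Pool.Agent.SG
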