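import Pool.Agent.helper80.SG.Spec

/-!
# Module ASM of project sg: (MP_b5a345_ag): the assembly
-/

set_option autoImplicit false
set_option linter.unusedSectionVars false

namespace Pool.Agent.SG

open MvPolynomial Module Pool.Agent.SV

theorem ASM_ptc0 {ι κ : Type} [Fintype ι] [DecidableEq ι] [Fintype κ] [DecidableEq κ] (c : ι → κ)
    (T : Finset κ) (P : (ι → ℂ) × (ι → ℂ)) : ptc c T 0 P = P.1 := by
  funext i
  simp [ptc]

theorem ASM_key (hDEC : DEC_stmt) {ι κ : Type} [Fintype ι] [DecidableEq ι] [Fintype κ]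
    [DecidableEq κ] (c : ι → κ) (d : κ → ℕ) (j : κ) (hdj : d j = 1)
    {F : MvPolynomial ι ℂ} (hF : F ∈ Sec c Finset.univ d) (u y : ι → ℂ)
    (hs : ∀ i, eval (lft c j u y) (pderiv i F) = 0) :
    (∀ v, c v = j → eval y (pderiv v F) = 0) ∧
    ∀ i, ∑ v ∈ Finset.univ.filter (fun v => c v = j),
      u v * eval y (pderiv i (pderiv v F)) = 0 := by
  obtain ⟨h1, h2⟩ := hDEC c d j hdj
  obtain ⟨h3, -, h5⟩ := h1 F hF
  refine ⟨fun v hv => ?_, fun i => ?_⟩
  · rw [← (h2 _ (h3 v hv)).1 u y]
    exact hs v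
  · by_cases hi : c i = j
    · refine Finset.sum_eq_zero fun v hv => ?_
      have hv' : c v = j := (Finset.mem_filter.mp hv).2
      rw [(h2 _ (h3 v hv')).2.1 i hi]
      simp
    · have h6 := h5 i hi (lft c j u y)
      rw [hs i] at h6
      rw [h6]
      refine Finset.sum_congr rfl fun v hv => ?_
      have hv' : c v = j := (Finset.mem_filter.mp hv).2
      rw [(h2 _ (h3 v hv')).2.2 i u y]
      simp [lft, hv']

theorem ASM_single {ι κ : Type} [Fintype ι] [DecidableEq ι] [Fintype κ] [DecidableEq κ] (c : ι → κ)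
    (j : κ) (a : ι) (ha : c a = j) (g : ι → ℂ)
    (h : ∑ v ∈ Finset.univ.filter (fun v => c v = j),
      (Pi.single a 1 : ι → ℂ) v * g v = 0) : g a = 0 := by
  rw [Finset.sum_eq_single a] at h
  · simpa using h
  · intro b _ hb
    simp [Pi.single_eq_of_ne hb]
  · intro hn
    exact absurd (Finset.mem_filter.mpr ⟨Finset.mem_univ a, ha⟩) hn

theorem ASM_sumsingle {ι κ : Type} [Fintype ι] [DecidableEq ι] [Fintype κ] [DecidableEq κ]
    (c : ι → κ) (j : κ) (a : ι) (ha : c a = j) (g : ι → ℂ) :
    ∑ v ∈ Finset.univ.filter (fun v => c v = j),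
      (Pi.single a 1 : ι → ℂ) v * g v = g a := by
  rw [Finset.sum_eq_single a]
  · simp
  · intro b _ hb
    simp [Pi.single_eq_of_ne hb]
  · intro hn
    exact absurd (Finset.mem_filter.mpr ⟨Finset.mem_univ a, ha⟩) hn

theorem ASM_double {ι κ : Type} [Fintype ι] [DecidableEq ι] [Fintype κ] [DecidableEq κ] (c : ι → κ)
    (j : κ) (a b : ι) (ha : c a = j) (hb : c b = j) (g : ι → ℂ)
    (h : ∑ v ∈ Finset.univ.filter (fun v => c v = j),
      (Pi.single a 1 + Pi.single b 1 : ι → ℂ) v * g v = 0) : g a + g b = 0 := by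
  rw [← ASM_sumsingle c j a ha g, ← ASM_sumsingle c j b hb g, ← Finset.sum_add_distrib]
  rw [← h]
  refine Finset.sum_congr rfl fun v _ => ?_
  simp only [Pi.add_apply]
  ring

/-- the facts about the components of `F` at the points -/
theorem ASM_facts (hDEC : DEC_stmt) {ι κ : Type} [Fintype ι] [DecidableEq ι] [Fintype κ]
    [DecidableEq κ] (c : ι → κ) (T : Finset κ) (d : κ → ℕ) (j : κ) (hdj : d j = 1)
    {L Γ : Type} (comp : L → ι) (src tgt host : Γ → ι)
    (Z : (L → ι → ℂ) × (Γ → (ι → ℂ) × (ι → ℂ)))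
    (hcomp : ∀ l, c (comp l) = j)
    (hc : ∀ γ, c (src γ) = j ∧ c (tgt γ) = j ∧ c (host γ) = j)
    {F : MvPolynomial ι ℂ} (hF : F ∈ Sec c Finset.univ d)
    (hs : ∀ w i, eval (XP c T j comp src tgt host Z w) (pderiv i F) = 0) :
    (∀ v, c v = j → ∀ l, eval (Z.1 l) (pderiv v F) = 0) ∧
    (∀ l i, eval (Z.1 l) (pderiv i (pderiv (comp l) F)) = 0) ∧
    (∀ v, c v = j → ∀ γ a, eval (ptc c T a (Z.2 γ)) (pderiv v F) = 0) ∧
    (∀ γ i, eval (ptc c T 0 (Z.2 γ)) (pderiv i (pderiv (src γ) F)) +
      eval (ptc c T 0 (Z.2 γ)) (pderiv i (pderiv (tgt γ) F)) = 0) ∧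
    (∀ γ i, eval (ptc c T 1 (Z.2 γ)) (pderiv i (pderiv (src γ) F)) = 0) ∧
    (∀ γ i, eval (ptc c T 2 (Z.2 γ)) (pderiv i (pderiv (host γ) F)) = 0) := by
  have hL : ∀ l, _ := fun l => ASM_key hDEC c d j hdj hF (Pi.single (comp l) 1) (Z.1 l)
    (fun i => hs (Sum.inl l) i)
  have h0 : ∀ γ, _ := fun γ => ASM_key hDEC c d j hdj hF (Pi.single (src γ) 1 + Pi.single (tgt γ) 1)
    (ptc c T 0 (Z.2 γ)) (fun i => by simpa [XP] using hs (Sum.inr (γ, 0)) i)
  have h1 : ∀ γ, _ := fun γ => ASM_key hDEC c d j hdj hF (Pi.single (src γ) 1)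
    (ptc c T 1 (Z.2 γ)) (fun i => by simpa [XP] using hs (Sum.inr (γ, 1)) i)
  have h2 : ∀ γ, _ := fun γ => ASM_key hDEC c d j hdj hF (Pi.single (host γ) 1)
    (ptc c T 2 (Z.2 γ)) (fun i => by simpa [XP] using hs (Sum.inr (γ, 2)) i)
  refine ⟨fun v hv l => (hL l).1 v hv, fun l i => ?_, fun v hv γ a => ?_, fun γ i => ?_,
    fun γ i => ?_, fun γ i => ?_⟩
  · exact ASM_single c j (comp l) (hcomp l) (fun v => eval (Z.1 l) (pderiv i (pderiv v F)))
      ((hL l).2 i)
  · fin_cases a
    · exact (h0 γ).1 v hv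
    · exact (h1 γ).1 v hv
    · exact (h2 γ).1 v hv
  · exact ASM_double c j (src γ) (tgt γ) (hc γ).1 (hc γ).2.1
      (fun v => eval (ptc c T 0 (Z.2 γ)) (pderiv i (pderiv v F))) ((h0 γ).2 i)
  · exact ASM_single c j (src γ) (hc γ).1
      (fun v => eval (ptc c T 1 (Z.2 γ)) (pderiv i (pderiv v F))) ((h1 γ).2 i)
  · exact ASM_single c j (host γ) (hc γ).2.2
      (fun v => eval (ptc c T 2 (Z.2 γ)) (pderiv i (pderiv v F))) ((h2 γ).2 i)

/-- membership of the components in the kernels -/
theorem ASM_mem (hID3 : ID3_stmt) (hDEC : DEC_stmt) {ι κ : Type} [Fintype ι] [DecidableEq ι]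
    [Fintype κ] [DecidableEq κ] (c : ι → κ) (T : Finset κ) (d : κ → ℕ) (j : κ) (hdj : d j = 1)
    (hjT : j ∉ T) (hT : ∑ k ∈ T, d k = 3)
    {L Γ : Type} (comp : L → ι) (src tgt host : Γ → ι)
    (Z : (L → ι → ℂ) × (Γ → (ι → ℂ) × (ι → ℂ)))
    (hcomp : ∀ l, c (comp l) = j)
    (hc : ∀ γ, c (src γ) = j ∧ c (tgt γ) = j ∧ c (host γ) = j)
    {F : MvPolynomial ι ℂ} (hF : F ∈ Sec c Finset.univ d)
    (hs : ∀ w i, eval (XP c T j comp src tgt host Z w) (pderiv i F) = 0)
    (v : ι) (hv : c v = j)
    (hsrc : ∀ γ, src γ = v → ∀ i, eval (ptc c T 0 (Z.2 γ)) (pderiv i (pderiv v F)) = 0)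
    (hm : pderiv v F ∈ Sec c Finset.univ (low d j)) :
    (⟨pderiv v F, hm⟩ : ↥(Sec c Finset.univ (low d j))) ∈
      LinearMap.ker (compL c T (low d j) (fun l => decide (comp l = v))
        (fun γ => roleOf (src γ) (tgt γ) (host γ) v) Z) := by
  obtain ⟨f1, f2, f3, f4, f5, f6⟩ :=
    ASM_facts hDEC c T d j hdj comp src tgt host Z hcomp hc hF hs
  rw [mem_ker_compL]
  refine ⟨fun l => f1 v hv l, fun l hl i => ?_, fun γ => ?_⟩
  · have hl' : comp l = v := by simpa using hl
    have := f2 l i
    rw [hl'] at this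
    exact this
  · funext o
    simp only [roleS, roleL, LinearMap.comp_apply, LinearMap.pi_apply, Submodule.subtype_apply,
      Pi.zero_apply]
    rcases o with _ | ⟨a, _ | i⟩
    · by_cases hr : roleOf (src γ) (tgt γ) (host γ) v = 1
      · have hvt : v = tgt γ := by
          unfold roleOf at hr
          split_ifs at hr with h1 h2 h3
          · exact absurd hr (by decide)
          · exact h2
          · exact absurd hr (by decide)
          · exact absurd hr (by decide)
        have hu : used (ι := ι) (roleOf (src γ) (tgt γ) (host γ) v) none = true := by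
          simp [used, hr]
        rw [if_pos hu]
        change tgtL c T (Z.2 γ) (pderiv v F) = 0
        rw [tgtL_apply]
        have hlow : ∑ k ∈ T, low d j k = 3 := by
          rw [← hT]
          refine Finset.sum_congr rfl fun k hk => ?_
          have hkj : k ≠ j := fun h => hjT (h ▸ hk)
          simp [low, Function.update_of_ne hkj]
        have hsm : pderiv (src γ) F ∈ Sec c Finset.univ (low d j) :=
          ((hDEC c d j hdj).1 F hF).1 (src γ) (hc γ).1
        have hid := hID3 c T (low d j) hlow _ hsm (Z.2 γ)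
        rw [f3 (src γ) (hc γ).1 γ 2, f3 (src γ) (hc γ).1 γ 0, f3 (src γ) (hc γ).1 γ 1] at hid
        have hz : ∑ i ∈ Finset.univ.filter (fun i => c i ∈ T),
            (Z.2 γ).1 i * eval (ptc c T 1 (Z.2 γ)) (pderiv i (pderiv (src γ) F)) = 0 :=
          Finset.sum_eq_zero fun i _ => by rw [f5 γ i, mul_zero]
        rw [hz] at hid
        have hid' : ∑ i ∈ Finset.univ.filter (fun i => c i ∈ T),
            (Z.2 γ).2 i * eval (ptc c T 0 (Z.2 γ)) (pderiv i (pderiv (src γ) F)) = 0 := by
          linear_combination -hid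
        rw [ASM_ptc0] at hid'
        have hneg : ∑ i ∈ Finset.univ.filter (fun i => c i ∈ T),
            (Z.2 γ).2 i * eval (Z.2 γ).1 (pderiv i (pderiv v F)) =
            - ∑ i ∈ Finset.univ.filter (fun i => c i ∈ T),
            (Z.2 γ).2 i * eval (Z.2 γ).1 (pderiv i (pderiv (src γ) F)) := by
          rw [← Finset.sum_neg_distrib]
          refine Finset.sum_congr rfl fun i _ => ?_
          have h4 := f4 γ i
          rw [ASM_ptc0] at h4
          rw [hvt]
          linear_combination (Z.2 γ).2 i * h4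
        rw [hneg, hid', neg_zero]
      · have hu : ¬ (used (ι := ι) (roleOf (src γ) (tgt γ) (host γ) v) none = true) := by
          simp [used, hr]
        rw [if_neg hu]
        rfl
    · have hu : used (ι := ι) (roleOf (src γ) (tgt γ) (host γ) v) (some (a, none)) = true := rfl
      rw [if_pos hu]
      change fnl (ptc c T a (Z.2 γ)) none (pderiv v F) = 0
      rw [fnl_none]
      exact f3 v hv γ a
    · by_cases hr : (roleOf (src γ) (tgt γ) (host γ) v = 3 ∧ a ≠ 2) ∨
        (roleOf (src γ) (tgt γ) (host γ) v = 2 ∧ a = 2)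
      · have hu : used (roleOf (src γ) (tgt γ) (host γ) v) (some (a, some i)) = true := by
          simp only [used, decide_eq_true_eq]
          exact hr
        rw [if_pos hu]
        change fnl (ptc c T a (Z.2 γ)) (some i) (pderiv v F) = 0
        rw [fnl_some]
        rcases hr with ⟨hr, ha⟩ | ⟨hr, ha⟩
        · have hvs : v = src γ := by
            unfold roleOf at hr
            split_ifs at hr with h1 h2 h3
            · exact h1
            · exact absurd hr (by decide)
            · exact absurd hr (by decide)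
            · exact absurd hr (by decide)
          fin_cases a
          · exact hsrc γ hvs.symm i
          · rw [hvs]
            exact f5 γ i
          · exact absurd rfl ha
        · have hvh : v = host γ := by
            unfold roleOf at hr
            split_ifs at hr with h1 h2 h3
            · exact absurd hr (by decide)
            · exact absurd hr (by decide)
            · exact h3
            · exact absurd hr (by decide)
          subst ha
          rw [hvh]
          exact f6 γ i
      · have hu : ¬ (used (roleOf (src γ) (tgt γ) (host γ) v) (some (a, some i)) = true) := by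
          simp only [used, decide_eq_true_eq]
          exact hr
        rw [if_neg hu]
        rfl

theorem ASM (hID3 : ID3_stmt) (hDEC : DEC_stmt) : ASM_stmt := by
  intro ι κ _ _ _ _ c T d j hdj hjT hT L Γ _ _ comp src tgt host A e Z hcomp hc hA hker he r E
  classical
  have hdec := hDEC c d j hdj
  -- all singular points
  have hsing : ∀ F ∈ Sng c d (fun l => XP c T j comp src tgt host Z (E l)),
      ∀ w i, eval (XP c T j comp src tgt host Z w) (pderiv i F) = 0 := by
    intro F hF w i
    have h := (mem_Sng.mp hF).2 (E.symm w) i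
    simpa using h
  have hSec : ∀ F ∈ Sng c d (fun l => XP c T j comp src tgt host Z (E l)),
      F ∈ Sec c Finset.univ d := fun F hF => (mem_Sng.mp hF).1
  have hmSec : ∀ F ∈ Sng c d (fun l => XP c T j comp src tgt host Z (E l)),
      ∀ v, c v = j → pderiv v F ∈ Sec c Finset.univ (low d j) :=
    fun F hF v hv => (hdec.1 F (hSec F hF)).1 v hv
  -- the kernels
  have hmem : ∀ (F : MvPolynomial ι ℂ) (hF : F ∈ Sng c d (fun l => XP c T j comp src tgt host Z (E l)))
      (v : ι) (hv : c v = j) (hvA : v ∉ A),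
      (⟨pderiv v F, hmSec F hF v hv⟩ : ↥(Sec c Finset.univ (low d j))) ∈
        LinearMap.ker (compL c T (low d j) (fun l => decide (comp l = v))
          (fun γ => roleOf (src γ) (tgt γ) (host γ) v) Z) := by
    intro F hF v hv hvA
    refine ASM_mem hID3 hDEC c T d j hdj hjT hT comp src tgt host Z hcomp hc (hSec F hF)
      (hsing F hF) v hv ?_ _
    intro γ hγ
    exact absurd (hγ ▸ (hA γ).1) hvA
  let S := Sng c d (fun l => XP c T j comp src tgt host Z (E l))
  let I := {v : ι // c v = j ∧ v ∉ A}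
  let W : I → Submodule ℂ ↥(Sec c Finset.univ (low d j)) := fun v =>
    LinearMap.ker (compL c T (low d j) (fun l => decide (comp l = v.1))
          (fun γ => roleOf (src γ) (tgt γ) (host γ) v.1) Z)
  let Ψ : ↥S →ₗ[ℂ] ((v : I) → ↥(W v)) := LinearMap.pi fun v =>
    LinearMap.codRestrict (W v)
      (LinearMap.codRestrict (Sec c Finset.univ (low d j))
        ((pderiv v.1).toLinearMap ∘ₗ S.subtype)
        (fun F => hmSec F.1 F.2 v.1 v.2.1))
      (fun F => hmem F.1 F.2 v.1 v.2.1 v.2.2)
  have hΨ : ∀ (F : ↥S) (v : I), (((Ψ F v : ↥(W v)) : ↥(Sec c Finset.univ (low d j))) :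
      MvPolynomial ι ℂ) = pderiv v.1 F.1 := fun F v => rfl
  have hinj : Function.Injective Ψ := by
    rw [injective_iff_map_eq_zero]
    intro F hF0
    have hzA : ∀ v, c v = j → v ∉ A → pderiv v F.1 = 0 := by
      intro v hv hvA
      have h1 := hΨ F ⟨v, hv, hvA⟩
      rw [hF0] at h1
      simpa using h1.symm
    have hz : ∀ v, c v = j → pderiv v F.1 = 0 := by
      intro v hv
      by_cases hvA : v ∈ A
      · have hk := ASM_mem hID3 hDEC c T d j hdj hjT hT comp src tgt host Z hcomp hc
          (hSec F.1 F.2) (hsing F.1 F.2) v hv (by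
            intro γ hγ i
            have h4 := (ASM_facts hDEC c T d j hdj comp src tgt host Z hcomp hc (hSec F.1 F.2)
              (hsing F.1 F.2)).2.2.2.1 γ i
            rw [hzA (tgt γ) (hc γ).2.1 (hA γ).2.1, hγ] at h4
            simpa using h4) (hmSec F.1 F.2 v hv)
        have hfr := hker v hv
        rw [he v hvA] at hfr
        have hbot := Submodule.finrank_eq_zero.mp (Nat.le_zero.mp hfr)
        rw [hbot] at hk
        have := (Submodule.mem_bot ℂ).mp hk
        exact congrArg Subtype.val this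
      · exact hzA v hv hvA
    have hsum := (hdec.1 F.1 (hSec F.1 F.2)).2.1
    apply Subtype.ext
    rw [hsum]
    refine Finset.sum_eq_zero fun v hv => ?_
    rw [hz v (Finset.mem_filter.mp hv).2, mul_zero]
  have hfree : ∀ v : I, Module.Free ℂ ↥(W v) := fun v => Module.Free.of_divisionRing ℂ ↥(W v)
  have hfin : ∀ v : I, Module.Finite ℂ ↥(W v) := fun v => inferInstance
  have hle := LinearMap.finrank_le_finrank_of_injective hinj
  rw [Module.finrank_pi_fintype] at hle
  refine hle.trans ?_
  rw [Finset.sum_subtype (Finset.univ.filter (fun v => c v = j ∧ v ∉ A))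
    (p := fun v => c v = j ∧ v ∉ A) (by simp) e]
  exact Finset.sum_le_sum fun v _ => hker v.1 v.2.1

end Pool.Agent.SG
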