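import Pool.Agent.helper80.SG.Spec2
import Pool.Agent.helper58.SV.RKB

set_option autoImplicit false
set_option linter.unusedSectionVars false

namespace Pool.Agent.SG

open MvPolynomial Module Pool.Agent.SV

theorem RKM : RKM_stmt := by
  intro τ E P J _ _ _ _ _ _ _ _ Φ
  have h00 : dmM Φ 0 = finrank ℂ E := by
    obtain ⟨x, h⟩ := exists_dmM Φ 0
    rw [← h]
    have : KerS Φ (fun t => Finset.range ((0 : τ → ℕ) t)) x = ⊤ := by
      rw [eq_top_iff]
      intro v _
      apply mem_KerS.2
      intro t i hi
      simp at hi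
    rw [this]
    exact finrank_top ℂ E
  refine ⟨h00, ?_, ?_⟩
  · intro t D hD a
    obtain ⟨x, h⟩ := exists_dmM Φ (a + Pi.single t 1)
    refine (dmM_le Φ a x).trans ?_
    rw [← h]
    apply RKB_drop (Φ t (x t (a t))) _ _ D _ (hD _)
    intro v hv
    obtain ⟨hv1, hv2⟩ := hv
    replace hv1 := mem_KerS.1 hv1
    replace hv2 := LinearMap.mem_ker.1 hv2
    apply mem_KerS.2
    intro t' i hi
    rw [Finset.mem_range] at hi
    by_cases htt : t' = t
    · subst htt
      have hi' : i < a t' + 1 := by simpa using hi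
      rcases Nat.lt_succ_iff_lt_or_eq.1 hi' with h1 | h1
      · exact hv1 t' i (Finset.mem_range.2 h1)
      · rw [h1]; exact hv2
    · have hi' : i < a t' := by simpa [htt] using hi
      exact hv1 t' i (Finset.mem_range.2 hi')
  · intro o D x hD
    have h1 := dmM_le Φ (0 + Pi.single o 1) (fun _ _ => x)
    have h2 : finrank ℂ (KerS Φ (fun t => Finset.range ((0 + Pi.single o 1 : τ → ℕ) t))
        (fun _ _ => x)) ≤ finrank ℂ (LinearMap.ker (Φ o x)) := by
      apply Submodule.finrank_mono
      intro v hv
      rw [mem_KerS] at hv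
      exact LinearMap.mem_ker.2 (hv o 0 (by simp))
    have h3 := LinearMap.finrank_range_add_finrank_ker (Φ o x)
    unfold ccM
    omega

end Pool.Agent.SG
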